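import Pool.Agent.Helper67.KPG.St2

/-!
# Project KP (MP_26be5b_ag), chapter G: module NUN

`exp (g_(≤ -1))` acts simply transitively on `h + g_(≤ -1)`, with a polynomial inverse.
-/

set_option autoImplicit false
set_option linter.unusedSectionVars false

namespace Pool.Agent.Helper84.KPG

open Pool.Agent.Helper67.NO Pool.Agent.Helper52.KP Pool.Agent.Helper67.KPG

universe u

variable {g : Type u} [LieRing g] [LieAlgebra ℂ g] [FiniteDimensional ℂ g]

/-! ### Polynomial maps -/

/-- polynomial functions on `g` -/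
private def PF (F : g → ℂ) : Prop :=
  ∃ P : MvPolynomial (Fin (Module.finrank ℂ g)) ℂ, ∀ x, F x = pev P x

/-- polynomial maps `g → g` -/
private def PM (F : g → g) : Prop := ∀ i, PF (fun x => co (F x) i)

private lemma PF.const (c : ℂ) : PF (fun _ : g => c) :=
  ⟨MvPolynomial.C c, fun x => by simp [pev]⟩

private lemma PF.add {F G : g → ℂ} (hF : PF F) (hG : PF G) : PF (fun x => F x + G x) := by
  obtain ⟨P, hP⟩ := hF
  obtain ⟨Q, hQ⟩ := hG
  exact ⟨P + Q, fun x => by simp only [hP, hQ, pev, map_add]⟩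

private lemma PF.mul {F G : g → ℂ} (hF : PF F) (hG : PF G) : PF (fun x => F x * G x) := by
  obtain ⟨P, hP⟩ := hF
  obtain ⟨Q, hQ⟩ := hG
  exact ⟨P * Q, fun x => by simp only [hP, hQ, pev, map_mul]⟩

private lemma PF.sum {ι : Type*} (s : Finset ι) (F : ι → g → ℂ) (hF : ∀ i ∈ s, PF (F i)) :
    PF (fun x => ∑ i ∈ s, F i x) := by
  classical
  induction s using Finset.induction_on with
  | empty => simpa using PF.const (g := g) 0
  | insert a s ha ih =>
    have h1 : PF (fun x => F a x + ∑ i ∈ s, F i x) :=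
      (hF a (Finset.mem_insert_self a s)).add (ih fun i hi => hF i (Finset.mem_insert_of_mem hi))
    refine (funext fun x => ?_ : (fun x => ∑ i ∈ insert a s, F i x) = _) ▸ h1
    rw [Finset.sum_insert ha]

private lemma co_add (x y : g) (i) : co (x + y) i = co x i + co y i := by
  simp [co]

private lemma co_smul (c : ℂ) (x : g) (i) : co (c • x) i = c * co x i := by
  simp [co]

private lemma co_sum {ι : Type*} (s : Finset ι) (F : ι → g) (i) :
    co (∑ j ∈ s, F j) i = ∑ j ∈ s, co (F j) i := by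
  simp [co]

private lemma co_expand (x : g) : x = ∑ j, co x j • (Module.finBasis ℂ g) j :=
  ((Module.finBasis ℂ g).sum_repr x).symm

private lemma PM.const (v : g) : PM (fun _ : g => v) := fun _ => PF.const _

private lemma PM.id : PM (fun x : g => x) := fun i => ⟨MvPolynomial.X i, fun x => by simp [pev, co]⟩

private lemma PM.add {F G : g → g} (hF : PM F) (hG : PM G) : PM (fun x => F x + G x) := fun i => by
  have h1 := (hF i).add (hG i)
  simpa only [co_add] using h1

private lemma PM.smul {F : g → g} (c : ℂ) (hF : PM F) : PM (fun x => c • F x) := fun i => by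
  have h1 := (PF.const (g := g) c).mul (hF i)
  simpa only [co_smul] using h1

private lemma PM.sub {F G : g → g} (hF : PM F) (hG : PM G) : PM (fun x => F x - G x) := by
  have h1 := hF.add (hG.smul (-1))
  simpa only [neg_smul, one_smul, ← sub_eq_add_neg] using h1

private lemma PM.sum {ι : Type*} (s : Finset ι) (F : ι → g → g) (hF : ∀ i ∈ s, PM (F i)) :
    PM (fun x => ∑ i ∈ s, F i x) := fun i => by
  have h1 := PF.sum s (fun j x => co (F j x) i) (fun j hj => hF j hj i)
  simpa only [co_sum] using h1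

private lemma PM.lin {F : g → g} (L : g →ₗ[ℂ] g) (hF : PM F) : PM (fun x => L (F x)) := fun i => by
  have h1 := PF.sum (Finset.univ : Finset (Fin (Module.finrank ℂ g)))
    (fun j x => co (F x) j * co (L ((Module.finBasis ℂ g) j)) i)
    (fun j _ => (hF j).mul (PF.const _))
  refine (funext fun x => ?_ : (fun x => co (L (F x)) i) = _) ▸ h1
  conv_lhs => rw [co_expand (F x)]
  rw [map_sum, co_sum]
  refine Finset.sum_congr rfl fun j _ => ?_
  rw [map_smul, co_smul]

private lemma PM.br {F G : g → g} (hF : PM F) (hG : PM G) : PM (fun x => ⁅F x, G x⁆) := fun i => by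
  have h1 := PF.sum (Finset.univ : Finset (Fin (Module.finrank ℂ g)))
    (fun j x => co (F x) j * (∑ k, co (G x) k *
      co ⁅(Module.finBasis ℂ g) j, (Module.finBasis ℂ g) k⁆ i))
    (fun j _ => (hF j).mul (PF.sum _ _ fun k _ => (hG k).mul (PF.const _)))
  refine (funext fun x => ?_ : (fun x => co ⁅F x, G x⁆ i) = _) ▸ h1
  conv_lhs => rw [co_expand (F x)]
  rw [sum_lie, co_sum]
  refine Finset.sum_congr rfl fun j _ => ?_
  rw [smul_lie, co_smul]
  congr 1
  conv_lhs => rw [co_expand (G x)]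
  rw [lie_sum, co_sum]
  refine Finset.sum_congr rfl fun k _ => ?_
  rw [lie_smul, co_smul]

private lemma PM.pow {F G : g → g} (hF : PM F) (hG : PM G) (k : ℕ) :
    PM (fun x => ((LieAlgebra.ad ℂ g (F x) : Module.End ℂ g) ^ k) (G x)) := by
  induction k with
  | zero => simpa using hG
  | succ k ih =>
    have h1 := hF.br ih
    refine (funext fun x => ?_ : (fun x => ((LieAlgebra.ad ℂ g (F x) : Module.End ℂ g) ^ (k + 1))
      (G x)) = _) ▸ h1
    rw [pow_succ', Module.End.mul_apply, LieAlgebra.ad_apply]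

/-! ### The diagonal operators -/

section diag

variable {e h f : g} {N : ℕ} {pr : ℤ → g →ₗ[ℂ] g}

/-- the diagonal operator with eigenvalues `c j` -/
private noncomputable def Dg (N : ℕ) (pr : ℤ → g →ₗ[ℂ] g) (c : ℤ → ℂ) : g →ₗ[ℂ] g :=
  ∑ j ∈ Finset.Icc (-(N : ℤ)) N, c j • pr j

private lemma pr_pr (hS : Sl e h f N pr) (j : ℤ) (x : g) : pr j (pr j x) = pr j x :=
  hS.fix j _ (hS.eig j x)

private lemma ext_pr (hS : Sl e h f N pr) {x y : g} (hxy : ∀ i, pr i x = pr i y) : x = y := by
  rw [← hS.sum x, ← hS.sum y]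
  exact Finset.sum_congr rfl fun i _ => hxy i

private lemma pr_zero (hS : Sl e h f N pr) {i : ℤ} (hi : i ∉ Finset.Icc (-(N : ℤ)) N) : pr i = 0 := by
  apply hS.top
  rw [Finset.mem_Icc, not_and_or, not_le, not_le] at hi
  rw [lt_abs]
  rcases hi with hi | hi
  · right; linarith
  · left; exact hi

private lemma pr_Dg (hS : Sl e h f N pr) (c : ℤ → ℂ) (i : ℤ) (x : g) :
    pr i (Dg N pr c x) = c i • pr i x := by
  by_cases hi : i ∈ Finset.Icc (-(N : ℤ)) N
  · unfold Dg
    rw [LinearMap.sum_apply, map_sum, Finset.sum_eq_single_of_mem i hi]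
    · rw [LinearMap.smul_apply, map_smul, pr_pr hS]
    · intro j _ hj
      rw [LinearMap.smul_apply, map_smul, hS.orth i j (Ne.symm hj), smul_zero]
  · rw [pr_zero hS hi]
    simp

private lemma pr_h (hS : Sl e h f N pr) (i : ℤ) (x : g) : pr i ⁅h, x⁆ = (i : ℂ) • pr i x := by
  have h1 : ⁅h, x⁆ = Dg N pr (fun j => (j : ℂ)) x := by
    conv_lhs => rw [← hS.sum x]
    unfold Dg
    rw [lie_sum, LinearMap.sum_apply]
    refine Finset.sum_congr rfl fun j _ => ?_
    rw [hS.eig, LinearMap.smul_apply]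
  rw [h1, pr_Dg hS]

private lemma pr_h' (hS : Sl e h f N pr) (i : ℤ) (x : g) : pr i ⁅x, h⁆ = (-(i : ℂ)) • pr i x := by
  rw [← lie_skew, map_neg, pr_h hS, neg_smul]

/-- eigenvalues of `L` -/
private noncomputable def cL (j : ℤ) : ℂ := if j < 0 then (-(j : ℂ))⁻¹ else 0

/-- eigenvalues of the projection -/
private noncomputable def cP (j : ℤ) : ℂ := if j < 0 then 1 else 0

private lemma cL_mul {j : ℤ} (hj : j < 0) : cL j * (-(j : ℂ)) = 1 := by
  unfold cL
  rw [if_pos hj]
  apply inv_mul_cancel₀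
  rw [neg_ne_zero]
  exact_mod_cast hj.ne

private lemma L_br (hS : Sl e h f N pr) {u : g} (hu : u ∈ le pr (-1)) :
    Dg N pr cL ⁅u, h⁆ = u := by
  apply ext_pr hS
  intro i
  rw [pr_Dg hS, pr_h' hS, smul_smul]
  by_cases hi : i < 0
  · rw [cL_mul hi, one_smul]
  · rw [mem_le.mp hu i (by omega), smul_zero]

private lemma br_L (hS : Sl e h f N pr) {u : g} (hu : u ∈ le pr (-1)) :
    ⁅Dg N pr cL u, h⁆ = u := by
  apply ext_pr hS
  intro i
  rw [pr_h' hS, pr_Dg hS, smul_smul, mul_comm]
  by_cases hi : i < 0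
  · rw [cL_mul hi, one_smul]
  · rw [mem_le.mp hu i (by omega), smul_zero]

private lemma L_mem (hS : Sl e h f N pr) (u : g) : Dg N pr cL u ∈ le pr (-1) := by
  rw [mem_le]
  intro i hi
  rw [pr_Dg hS, cL, if_neg (by omega), zero_smul]

private lemma L_le (hS : Sl e h f N pr) {s : ℤ} {u : g} (hu : u ∈ le pr s) :
    Dg N pr cL u ∈ le pr s := by
  rw [mem_le] at hu ⊢
  intro i hi
  rw [pr_Dg hS, hu i hi, smul_zero]

private lemma P_mem (hS : Sl e h f N pr) (u : g) : Dg N pr cP u ∈ le pr (-1) := by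
  rw [mem_le]
  intro i hi
  rw [pr_Dg hS, cP, if_neg (by omega), zero_smul]

private lemma P_eq (hS : Sl e h f N pr) {u : g} (hu : u ∈ le pr (-1)) : Dg N pr cP u = u := by
  apply ext_pr hS
  intro i
  rw [pr_Dg hS, cP]
  split_ifs with hi
  · rw [one_smul]
  · rw [mem_le.mp hu i (by omega), zero_smul]

/-! ### The remainder -/

/-- the terms of order at least two of `expAd u h` -/
private noncomputable def Rm (N : ℕ) (h u : g) : g :=
  ∑ k ∈ Finset.Ico 2 (2 * N + 1), ((k.factorial : ℂ)⁻¹) •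
    ((LieAlgebra.ad ℂ g u : Module.End ℂ g) ^ k) h

private lemma Rm_exp (hF : SlF e h f N pr) (hG : GPs g) {u : g} (hu : u ∈ le pr (-1)) :
    expAd u h = h + ⁅u, h⁆ + Rm N h u := by
  rw [hG.ser u h (2 * N + 1) (hF.nil0 u hu h)]
  have hN := hF.N2
  unfold Rm
  rw [Finset.range_eq_Ico, Finset.sum_eq_sum_Ico_succ_bot (by omega),
    Finset.sum_eq_sum_Ico_succ_bot (by omega)]
  simp [add_assoc]

private lemma Rm_mem (hF : SlF e h f N pr) {u : g} (hu : u ∈ le pr (-1)) :
    Rm N h u ∈ le pr (-1) := by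
  unfold Rm
  refine Submodule.sum_mem _ fun k hk => Submodule.smul_mem _ _ ?_
  have hk2 := (Finset.mem_Ico.mp hk).1
  exact hF.lemono _ _ (by omega) (hF.nil u hu k 0 h hF.h0.2)

private lemma Rm_diff (hF : SlF e h f N pr) {u u' : g} (hu : u ∈ le pr (-1))
    (hu' : u' ∈ le pr (-1)) {s : ℤ} (hs : u - u' ∈ le pr (-s)) :
    Rm N h u - Rm N h u' ∈ le pr (-(s + 1)) := by
  have key : ∀ k : ℕ, ((LieAlgebra.ad ℂ g u : Module.End ℂ g) ^ k) h -
      ((LieAlgebra.ad ℂ g u' : Module.End ℂ g) ^ k) h ∈ le pr (-(s + k - 1)) := by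
    intro k
    induction k with
    | zero => simp
    | succ k ih =>
      have h1 : ((LieAlgebra.ad ℂ g u : Module.End ℂ g) ^ (k + 1)) h -
          ((LieAlgebra.ad ℂ g u' : Module.End ℂ g) ^ (k + 1)) h =
          ⁅u, ((LieAlgebra.ad ℂ g u : Module.End ℂ g) ^ k) h -
            ((LieAlgebra.ad ℂ g u' : Module.End ℂ g) ^ k) h⁆ +
          ⁅u - u', ((LieAlgebra.ad ℂ g u' : Module.End ℂ g) ^ k) h⁆ := by
        rw [pow_succ', pow_succ', Module.End.mul_apply, Module.End.mul_apply,
          LieAlgebra.ad_apply, LieAlgebra.ad_apply, lie_sub, sub_lie]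
        abel
      rw [h1]
      refine Submodule.add_mem _ ?_ ?_
      · have h2 := hF.brle _ _ _ _ hu ih
        have h3 : (-1 : ℤ) + -(s + k - 1) = -(s + ((k + 1 : ℕ) : ℤ) - 1) := by push_cast; ring
        rwa [h3] at h2
      · have h2 := hF.brle _ _ _ _ hs (hF.nil u' hu' k 0 h hF.h0.2)
        have h3 : -s + (0 - (k : ℤ)) = -(s + ((k + 1 : ℕ) : ℤ) - 1) := by push_cast; ring
        rwa [h3] at h2
  unfold Rm
  rw [← Finset.sum_sub_distrib]
  refine Submodule.sum_mem _ fun k hk => ?_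
  rw [← smul_sub]
  refine Submodule.smul_mem _ _ ?_
  have hk2 := (Finset.mem_Ico.mp hk).1
  exact hF.lemono _ _ (by omega) (key k)

/-- the iteration -/
private noncomputable def Us (N : ℕ) (pr : ℤ → g →ₗ[ℂ] g) (h n : g) : ℕ → g
  | 0 => 0
  | s + 1 => Dg N pr cL (Dg N pr cP n - Rm N h (Us N pr h n s))

private lemma Us_mem (hS : Sl e h f N pr) (n : g) (s : ℕ) : Us N pr h n s ∈ le pr (-1) := by
  cases s with
  | zero => exact Submodule.zero_mem _
  | succ s => exact L_mem hS _

private lemma Us_diff (hS : Sl e h f N pr) (hF : SlF e h f N pr) (n : g) (s : ℕ) :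
    Us N pr h n (s + 1) - Us N pr h n s ∈ le pr (-((s : ℤ) + 1)) := by
  induction s with
  | zero =>
    have h1 := Us_mem hS n 1
    simpa [Us] using h1
  | succ s ih =>
    have h1 : Us N pr h n (s + 1 + 1) - Us N pr h n (s + 1) =
        Dg N pr cL (Rm N h (Us N pr h n s) - Rm N h (Us N pr h n (s + 1))) := by
      conv_lhs => rw [Us]
      conv_lhs =>
        rhs
        rw [Us]
      rw [← map_sub]
      congr 1
      abel
    rw [h1]
    apply L_le hS
    have h2 : Us N pr h n s - Us N pr h n (s + 1) ∈ le pr (-((s : ℤ) + 1)) := by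
      rw [← neg_sub]
      exact Submodule.neg_mem _ ih
    have h3 := Rm_diff hF (Us_mem hS n s) (Us_mem hS n (s + 1)) h2
    push_cast
    exact h3

private lemma uniq (hS : Sl e h f N pr) (hF : SlF e h f N pr) (hG : GPs g) {u u' : g}
    (hu : u ∈ le pr (-1)) (hu' : u' ∈ le pr (-1)) (he : expAd u h = expAd u' h) : u = u' := by
  rw [Rm_exp hF hG hu, Rm_exp hF hG hu', add_assoc, add_assoc, add_right_inj] at he
  have h1 := congrArg (Dg N pr cL) he
  rw [map_add, map_add, L_br hS hu, L_br hS hu'] at h1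
  have h2 : u - u' = Dg N pr cL (Rm N h u' - Rm N h u) := by
    rw [map_sub, sub_eq_sub_iff_add_eq_add, h1]
    abel
  have key : ∀ s : ℕ, u - u' ∈ le pr (-((s : ℤ) + 1)) := by
    intro s
    induction s with
    | zero => simpa using Submodule.sub_mem _ hu hu'
    | succ s ih =>
      have h3 : u' - u ∈ le pr (-((s : ℤ) + 1)) := by
        rw [← neg_sub]
        exact Submodule.neg_mem _ ih
      rw [h2]
      apply L_le hS
      have h4 := Rm_diff hF hu' hu h3
      push_cast
      exact h4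
  have h3 := key N
  rw [hF.lebot _ (by omega), Submodule.mem_bot, sub_eq_zero] at h3
  exact h3

private lemma Us_PM (s : ℕ) : PM (fun n => Us N pr h n s) := by
  induction s with
  | zero => exact PM.const 0
  | succ s ih =>
    refine PM.lin _ ((PM.lin _ PM.id).sub ?_)
    unfold Rm
    exact PM.sum _ _ fun k _ => (ih.pow (PM.const h) k).smul _

end diag

theorem hNUN (hBAS : StBAS.{u}) (hGPF : StGPF.{u}) : StNUN.{u} := by
  intro g _ _ _ e h f N pr hS
  have hF := hBAS g e h f N pr hS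
  have hG := hGPF g
  have hex : ∀ n ∈ le pr (-1), expAd (Us N pr h n N) h = h + n := by
    intro n hn
    have h1 := Us_diff hS hF n N
    rw [hF.lebot _ (by omega), Submodule.mem_bot, sub_eq_zero] at h1
    rw [Us, P_eq hS hn] at h1
    have h2 : n - Rm N h (Us N pr h n N) ∈ le pr (-1) :=
      Submodule.sub_mem _ hn (Rm_mem hF (Us_mem hS n N))
    have h3 := br_L hS h2
    rw [h1] at h3
    rw [Rm_exp hF hG (Us_mem hS n N), h3]
    abel
  exact ⟨fun n => Us N pr h n N, fun i => Us_PM N i, fun n hn => ⟨Us_mem hS n N, hex n hn,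
    fun u hu he => uniq hS hF hG hu (Us_mem hS n N) (he.trans (hex n hn).symm)⟩⟩

end Pool.Agent.Helper84.KPG
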